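import Pool.Agent.N206.HJ.Stm

/-!
# Closing a countable set under countably many operations; the countable good subgroup
-/

set_option autoImplicit false

namespace Pool.Agent.N971.HJ.CNT

open Pool.Agent.N206.HJ MvPowerSeries

section clos

variable {G : Type} [Group G]

omit [Group G] in
/-- the lists over a countable set -/
theorem countable_lists {T : Set G} (h : T.Countable) : {l : List G | ∀ x ∈ l, x ∈ T}.Countable := by
  have : Countable T := h.to_subtype
  have e : {l : List G | ∀ x ∈ l, x ∈ T} = Set.range (fun l : List T => l.map Subtype.val) := by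
    ext l
    constructor
    · intro hl
      refine ⟨l.attach.map fun x => ⟨x.1, hl x.1 x.2⟩, ?_⟩
      simp only [List.map_map]
      exact List.attach_map_subtype_val l
    · rintro ⟨m, rfl⟩ x hx
      rw [List.mem_map] at hx
      obtain ⟨y, -, rfl⟩ := hx
      exact y.2
  rw [e]
  exact Set.countable_range _

/-- one step of the closure -/
def stp (ops : ℕ → List G → G) (T : Set G) : Set G :=
  T ∪ ({1} ∪ (Set.image2 (fun a b => a * b) T T ∪ ((fun a => a⁻¹) '' T ∪
    ⋃ n, ops n '' {l : List G | ∀ x ∈ l, x ∈ T})))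

theorem stp_countable (ops : ℕ → List G → G) {T : Set G} (h : T.Countable) :
    (stp ops T).Countable := by
  refine h.union ((Set.countable_singleton 1).union ((h.image2 h _).union ((h.image _).union
    (Set.countable_iUnion fun n => (countable_lists h).image _))))

/-- the chain -/
def chn (ops : ℕ → List G → G) (S : Set G) : ℕ → Set G
  | 0 => S
  | k + 1 => stp ops (chn ops S k)

theorem chn_mono (ops : ℕ → List G → G) (S : Set G) {i j : ℕ} (h : i ≤ j) :
    chn ops S i ⊆ chn ops S j := by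
  induction h with
  | refl => exact subset_rfl
  | step _ ih => exact ih.trans Set.subset_union_left

theorem chn_list (ops : ℕ → List G → G) (S : Set G) (l : List G)
    (h : ∀ x ∈ l, ∃ k, x ∈ chn ops S k) : ∃ k, ∀ x ∈ l, x ∈ chn ops S k := by
  induction l with
  | nil => exact ⟨0, fun x hx => absurd hx List.not_mem_nil⟩
  | cons a l ih =>
    obtain ⟨k1, h1⟩ := h a List.mem_cons_self
    obtain ⟨k2, h2⟩ := ih fun x hx => h x (List.mem_cons_of_mem a hx)
    refine ⟨max k1 k2, fun x hx => ?_⟩
    rcases List.mem_cons.1 hx with rfl | hx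
    · exact chn_mono ops S (le_max_left _ _) h1
    · exact chn_mono ops S (le_max_right _ _) (h2 x hx)

end clos

/-- **CLOS** -/
theorem t_CLOS : S_CLOS := by
  intro G _ S hS ops
  refine ⟨{ carrier := ⋃ k, chn ops S k
            mul_mem' := ?_
            one_mem' := ?_
            inv_mem' := ?_ }, ?_, ?_, ?_⟩
  · intro a b ha hb
    obtain ⟨i, hi⟩ := Set.mem_iUnion.1 ha
    obtain ⟨j, hj⟩ := Set.mem_iUnion.1 hb
    refine Set.mem_iUnion.2 ⟨max i j + 1, Or.inr (Or.inr (Or.inl ⟨a, ?_, b, ?_, rfl⟩))⟩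
    · exact chn_mono ops S (le_max_left _ _) hi
    · exact chn_mono ops S (le_max_right _ _) hj
  · exact Set.mem_iUnion.2 ⟨1, Or.inr (Or.inl rfl)⟩
  · intro a ha
    obtain ⟨i, hi⟩ := Set.mem_iUnion.1 ha
    exact Set.mem_iUnion.2 ⟨i + 1, Or.inr (Or.inr (Or.inr (Or.inl ⟨a, hi, rfl⟩)))⟩
  · refine Set.countable_iUnion fun k => ?_
    induction k with
    | zero => exact hS
    | succ k ih => exact stp_countable ops ih
  · exact fun x hx => Set.mem_iUnion.2 ⟨0, hx⟩
  · intro i l hl
    obtain ⟨k, hk⟩ := chn_list ops S l fun x hx => Set.mem_iUnion.1 (hl x hx)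
    exact Set.mem_iUnion.2 ⟨k + 1, Or.inr (Or.inr (Or.inr (Or.inr
      (Set.mem_iUnion.2 ⟨i, l, hk, rfl⟩))))⟩

section cnt

variable {p : ℕ}

open Classical in
/-- the operation given by `φ` -/
noncomputable def op1 (φ : Ga p 2 →* Au p) (hφ : ∀ g : Ga p 2, φ g ∈ Ga p 1) (g : Ga p 1) :
    Ga p 1 :=
  if h : (g : Au p) ∈ Ga p 2 then ⟨φ ⟨g, h⟩, hφ _⟩ else 1

open Classical in
/-- the operation given by the solutions of equations -/
noncomputable def sol (k n : ℕ) (u : Fin n → Ga p 1) (γ : Ga p 1) : Fin n → Ga p 1 :=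
  if hex : 1 ≤ k ∧ ∃ h : Fin n → Au p, (∀ i, h i ∈ Ga p k) ∧
      (γ : Au p) = pc (fun t => (u t : Au p)) h then
    fun i => ⟨hex.2.choose i, Ga_anti hex.1 (hex.2.choose_spec.1 i)⟩ else fun _ => 1

theorem sol_spec {k n : ℕ} {u : Fin n → Ga p 1} {γ : Ga p 1} (h1 : 1 ≤ k)
    (h : ∃ h : Fin n → Au p, (∀ i, h i ∈ Ga p k) ∧ (γ : Au p) = pc (fun t => (u t : Au p)) h) :
    (∀ i, (sol k n u γ i : Au p) ∈ Ga p k) ∧
      (γ : Au p) = pc (fun t => (u t : Au p)) (fun i => (sol k n u γ i : Au p)) := by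
  have hex : 1 ≤ k ∧ ∃ h : Fin n → Au p, (∀ i, h i ∈ Ga p k) ∧
      (γ : Au p) = pc (fun t => (u t : Au p)) h := ⟨h1, h⟩
  have e : sol k n u γ = fun i => ⟨hex.2.choose i, Ga_anti hex.1 (hex.2.choose_spec.1 i)⟩ := by
    unfold sol
    rw [dif_pos hex]
  rw [e]
  exact hex.2.choose_spec

/-- the index set of the operations -/
abbrev Ix : Type := Option (ℕ × Σ n : ℕ, Fin n)

/-- all operations -/
noncomputable def opx (φ : Ga p 2 →* Au p) (hφ : ∀ g : Ga p 2, φ g ∈ Ga p 1) :
    Ix → List (Ga p 1) → Ga p 1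
  | none, l => op1 φ hφ (l.headD 1)
  | some (k, ⟨n, i⟩), l => sol k n (fun t => l.tail.getD t 1) (l.headD 1) i

/-- all operations, numbered -/
noncomputable def ops (φ : Ga p 2 →* Au p) (hφ : ∀ g : Ga p 2, φ g ∈ Ga p 1) (m : ℕ)
    (l : List (Ga p 1)) : Ga p 1 :=
  match (Encodable.decode m : Option Ix) with
  | some x => opx φ hφ x l
  | none => 1

theorem ops_encode (φ : Ga p 2 →* Au p) (hφ : ∀ g : Ga p 2, φ g ∈ Ga p 1) (x : Ix)
    (l : List (Ga p 1)) : ops φ hφ (Encodable.encode x) l = opx φ hφ x l := by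
  unfold ops
  rw [Encodable.encodek]

end cnt

/-- **CNT** -/
theorem t_CNT (p : ℕ) [Fact p.Prime] (h1 : S_DET2 p) (h2 : S_CLOS) : S_CNT p := by
  intro φ hφ
  -- the polynomial elements
  have hS : {g : Ga p 1 | Poly (g : Au p)}.Countable := by
    have hF : ∀ g : {g : Ga p 1 | Poly (g : Au p)}, ∃ P : Fin 3 → MvPolynomial (Fin 3) (ZMod p),
        ∀ i, (g.1 : Au p) (X i) = (P i : A p) := fun g => ⟨fun i => (g.2 i).choose,
          fun i => (g.2 i).choose_spec⟩
    choose F hF using hF
    have hinj : Function.Injective F := by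
      intro g h hgh
      apply Subtype.ext
      apply Subtype.ext
      refine h1.1 _ g.1.2 _ h.1.2 fun i => ?_
      rw [hF g i, hF h i, hgh]
    have : Countable (MvPolynomial (Fin 3) (ZMod p)) :=
      (AddMonoidAlgebra.coeffEquiv (R := ZMod p) (M := Fin 3 →₀ ℕ)).injective.countable
    have h3 : Countable {g : Ga p 1 | Poly (g : Au p)} := hinj.countable
    exact Set.countable_coe_iff.1 h3
  obtain ⟨H, hH1, hH2, hH3⟩ := h2 (Ga p 1) {g : Ga p 1 | Poly (g : Au p)} hS (ops φ hφ)
  refine ⟨H.map (Ga p 1).subtype, ?_, ?_⟩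
  · constructor
    · rintro g ⟨x, -, rfl⟩
      exact x.2
    · intro g hg hgp
      exact ⟨⟨g, hg⟩, hH2 hgp, rfl⟩
    · rintro g ⟨x, hx, hxg⟩
      have hxg' : (x : Au p) = g := hxg
      have h3 := hH3 (Encodable.encode (none : Ix)) [x] (by
        intro y hy
        rw [List.mem_singleton.1 hy]
        exact hx)
      rw [ops_encode] at h3
      have hm : (x : Au p) ∈ Ga p 2 := hxg' ▸ g.2
      have h4 : opx φ hφ none [x] = ⟨φ g, hφ g⟩ := by
        show op1 φ hφ x = _
        unfold op1
        rw [dif_pos hm]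
        apply Subtype.ext
        show φ ⟨x, hm⟩ = φ g
        congr 1
        exact Subtype.ext hxg'
      rw [h4] at h3
      exact ⟨_, h3, rfl⟩
    · intro k n u γ hk hu hγ hex
      obtain ⟨x, hx, hxγ⟩ := hγ
      choose y hy1 hy2 using hu
      have hxγ' : (x : Au p) = γ := hxγ
      have hy2' : ∀ i, (y i : Au p) = u i := hy2
      have hu' : (fun t => (y t : Au p)) = u := funext hy2'
      have hex' : ∃ h : Fin n → Au p, (∀ i, h i ∈ Ga p k) ∧
          (x : Au p) = pc (fun t => (y t : Au p)) h := by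
        rw [hu', hxγ']
        exact hex
      have h3 := sol_spec hk hex'
      refine ⟨fun i => (sol k n y x i : Au p), fun i => ⟨⟨sol k n y x i, ?_, rfl⟩, h3.1 i⟩, ?_⟩
      · have h4 := hH3 (Encodable.encode (some (k, ⟨n, i⟩) : Ix)) (x :: List.ofFn y) (by
          intro z hz
          rcases List.mem_cons.1 hz with rfl | hz
          · exact hx
          · rw [List.mem_ofFn] at hz
            obtain ⟨t, rfl⟩ := hz
            exact hy1 t)
        rw [ops_encode] at h4
        have h5 : opx φ hφ (some (k, ⟨n, i⟩)) (x :: List.ofFn y) = sol k n y x i := by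
          show sol k n (fun t => (List.ofFn y).getD t 1) x i = _
          have h6 : (fun t : Fin n => (List.ofFn y).getD t 1) = y := by
            funext t
            rw [List.getD_eq_getElem _ _ (by simp)]
            simp
          rw [h6]
        rw [h5] at h4
        exact h4
      · rw [hu', hxγ'] at h3
        exact h3.2
  · have h3 : ((H.map (Ga p 1).subtype : Subgroup (Au p)) : Set (Au p)).Countable := by
      rw [Subgroup.coe_map]
      exact hH1.image _
    exact h3.to_subtype

end Pool.Agent.N971.HJ.CNT
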