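import Pool.Agent.N206.HJ.Stm

/-!
# Surjectivity in the graded Lie algebra of vector fields in three variables over `F_p`
-/

set_option autoImplicit false

namespace Pool.Agent.N971.HJ.STEPA

open Pool.Agent.N206.HJ MvPowerSeries

variable {p : ℕ}

/-- the vector field with the single component `f` -/
noncomputable def el (e : Fin 3) (f : A p) : Fin 3 → A p := fun i => if i = e then f else 0

theorem vf_el (e : Fin 3) (f g : A p) : vf (el e f) g = f * pderiv (ZMod p) e g := by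
  unfold vf el
  rw [Finset.sum_eq_single e]
  · rw [if_pos rfl]
  · intro b _ hb
    rw [if_neg hb, zero_mul]
  · intro h
    exact absurd (Finset.mem_univ e) h

theorem pd_Xpow (a e : Fin 3) (m : ℕ) (hm : p ∣ m) (f : A p) :
    pderiv (ZMod p) e (X a ^ m * f) = X a ^ m * pderiv (ZMod p) e f := by
  have h := vf_Xpow_mul (el e 1) a m hm f
  rw [vf_el, vf_el, one_mul, one_mul] at h
  exact h

theorem pd_C (e : Fin 3) (κ : ZMod p) (f : A p) :
    pderiv (ZMod p) e (C κ * f) = C κ * pderiv (ZMod p) e f := by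
  rw [Derivation.leibniz, pderiv_C, smul_zero, add_zero, smul_eq_mul]

theorem br_el {c e : Fin 3} {F G : A p} (h : pderiv (ZMod p) e F = 0) :
    br (el c F) (el e G) = el e (F * pderiv (ZMod p) c G) := by
  funext i
  unfold br
  rw [vf_el, vf_el]
  have h1 : pderiv (ZMod p) e (el c F i) = 0 := by
    unfold el
    split_ifs
    · exact h
    · rw [map_zero]
  rw [h1, mul_zero, sub_zero]
  unfold el
  split_ifs
  · rfl
  · rw [map_zero, mul_zero]

theorem pd_mono (c : Fin 3) (β : Fin 3 →₀ ℕ) (w : ZMod p) :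
    pderiv (ZMod p) c (monomial (β + Finsupp.single c 1) w) =
      monomial β (((β c : ZMod p) + 1) * w) := by
  classical
  ext α
  rw [coeff_pderiv, coeff_monomial, coeff_monomial]
  by_cases h : α = β
  · subst h
    rw [if_pos rfl, if_pos rfl]
    ring
  · rw [if_neg h, if_neg (fun h1 => h (add_right_cancel h1)), zero_mul]

theorem X_pd_mono (c : Fin 3) (β : Fin 3 →₀ ℕ) (w : ZMod p) :
    X c * pderiv (ZMod p) c (monomial β w) = monomial β ((β c : ZMod p) * w) := by
  classical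
  rcases Nat.eq_zero_or_pos (β c) with h0 | h0
  · have h1 : pderiv (ZMod p) c (monomial β w) = 0 := by
      ext α
      rw [coeff_pderiv, coeff_monomial, if_neg, zero_mul, coeff_zero]
      intro h
      have h2 := DFunLike.congr_fun h c
      rw [Finsupp.add_apply, Finsupp.single_eq_same] at h2
      omega
    rw [h1, mul_zero, h0, Nat.cast_zero, zero_mul, map_zero]
  · obtain ⟨γ, hγ⟩ : ∃ γ : Fin 3 →₀ ℕ, β = γ + Finsupp.single c 1 := by
      refine ⟨β - Finsupp.single c 1, ?_⟩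
      ext i
      rw [Finsupp.add_apply, Finsupp.tsub_apply]
      by_cases hi : i = c
      · subst hi
        rw [Finsupp.single_eq_same]
        omega
      · rw [Finsupp.single_eq_of_ne hi]
        omega
    subst hγ
    rw [pd_mono]
    have h1 : (X c : A p) = monomial (Finsupp.single c 1) 1 := rfl
    rw [h1, monomial_mul_monomial, one_mul, add_comm (Finsupp.single c 1) γ, Finsupp.add_apply,
      Finsupp.single_eq_same, Nat.cast_add, Nat.cast_one]

theorem CX_mono (a : Fin 3) (m : ℕ) (κ : ZMod p) (β : Fin 3 →₀ ℕ) (w : ZMod p) :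
    C κ * X a ^ m * monomial β w = monomial (β + Finsupp.single a m) (κ * w) := by
  have h1 : (C κ : A p) = monomial 0 κ := rfl
  rw [h1, X_pow_eq, monomial_mul_monomial, monomial_mul_monomial]
  congr 1
  · rw [zero_add, add_comm]
  · rw [mul_one]

theorem br_two {a c e : Fin 3} {m : ℕ} (hm : p ∣ m) (he : e ≠ c) (κ : ZMod p)
    (β : Fin 3 →₀ ℕ) (w : ZMod p) :
    br (fld2 a c m κ) (el e (monomial β w)) =
      el e (monomial (β + Finsupp.single a m) (κ * (((β c : ℕ) : ZMod p) * w))) := by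
  have h : pderiv (ZMod p) e (C κ * X a ^ m * X c : A p) = 0 := by
    rw [mul_assoc, pd_C, pd_Xpow a e m hm, pderiv_X_of_ne (fun h => he h.symm), mul_zero, mul_zero]
  have h1 : fld2 a c m κ = el c (C κ * X a ^ m * X c) := rfl
  rw [h1, br_el h, mul_assoc _ (X c), X_pd_mono, CX_mono]

theorem br_one {a c e : Fin 3} {m : ℕ} (hm : p ∣ m) (κ : ZMod p)
    (β : Fin 3 →₀ ℕ) (w : ZMod p) :
    br (fld1 a c m κ) (el e (monomial (β + Finsupp.single c 1) w)) =
      el e (monomial (β + Finsupp.single a m) (κ * (((β c : ZMod p) + 1) * w))) := by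
  have h : pderiv (ZMod p) e (C κ * X a ^ m : A p) = 0 := by
    have h1 := pd_Xpow a e m hm (1 : A p)
    rw [mul_one, pderiv_one, mul_zero] at h1
    rw [pd_C, h1, mul_zero]
  have h1 : fld1 a c m κ = el c (C κ * X a ^ m) := rfl
  rw [h1, br_el h, pd_mono, CX_mono]

/-! ### sums -/

theorem vf_zero (D : Fin 3 → A p) : vf D 0 = 0 := by
  unfold vf
  refine Finset.sum_eq_zero fun j _ => ?_
  rw [map_zero, mul_zero]

theorem vf_zero_left (f : A p) : vf (0 : Fin 3 → A p) f = 0 := by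
  unfold vf
  refine Finset.sum_eq_zero fun j _ => ?_
  rw [Pi.zero_apply, zero_mul]

theorem br_add (D E F : Fin 3 → A p) : br D (E + F) = br D E + br D F := by
  funext i
  unfold br
  rw [Pi.add_apply, vf_add]
  have h := vf_add_left E F (D i)
  have h1 : vf (E + F) (D i) = vf E (D i) + vf F (D i) := h
  rw [h1, Pi.add_apply]
  ring

theorem br_zero (D : Fin 3 → A p) : br D 0 = 0 := by
  funext i
  unfold br
  rw [Pi.zero_apply, vf_zero, vf_zero_left, sub_zero]

section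

variable (m1 m2 : Fin 3 → Fin 3 → ℕ) (κ1 κ2 : Fin 3 → Fin 3 → ZMod p)

/-- the sum of the brackets -/
noncomputable def Sm (W1 W2 : Fin 3 → Fin 3 → Fin 3 → A p) (e : Fin 3) : A p :=
  ∑ a : Fin 3, ∑ c : Fin 3, (if a = c then 0 else
    br (fld1 a c (m1 a c) (κ1 a c)) (W1 a c) e + br (fld2 a c (m2 a c) (κ2 a c)) (W2 a c) e)

theorem Sm_add (W1 W2 V1 V2 : Fin 3 → Fin 3 → Fin 3 → A p) (e : Fin 3) :
    Sm m1 m2 κ1 κ2 (W1 + V1) (W2 + V2) e = Sm m1 m2 κ1 κ2 W1 W2 e + Sm m1 m2 κ1 κ2 V1 V2 e := by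
  unfold Sm
  rw [← Finset.sum_add_distrib]
  refine Finset.sum_congr rfl fun a _ => ?_
  rw [← Finset.sum_add_distrib]
  refine Finset.sum_congr rfl fun c _ => ?_
  split_ifs
  · rw [add_zero]
  · rw [Pi.add_apply, Pi.add_apply, Pi.add_apply, Pi.add_apply, br_add, br_add, Pi.add_apply,
      Pi.add_apply]
    ring

theorem Sm_zero (e : Fin 3) : Sm m1 m2 κ1 κ2 0 0 e = 0 := by
  unfold Sm
  refine Finset.sum_eq_zero fun a _ => Finset.sum_eq_zero fun c _ => ?_
  split_ifs
  · rfl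
  · rw [Pi.zero_apply, Pi.zero_apply, br_zero, br_zero, Pi.zero_apply, add_zero]

/-- a family with a single member -/
noncomputable def pt (a c : Fin 3) (E : Fin 3 → A p) : Fin 3 → Fin 3 → Fin 3 → A p :=
  fun a' c' => if a' = a ∧ c' = c then E else 0

theorem Sm_pt1 {a c : Fin 3} (hac : a ≠ c) (E : Fin 3 → A p) (e : Fin 3) :
    Sm m1 m2 κ1 κ2 (pt a c E) 0 e = br (fld1 a c (m1 a c) (κ1 a c)) E e := by
  unfold Sm
  rw [Finset.sum_eq_single a]
  · rw [Finset.sum_eq_single c]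
    · rw [if_neg hac, Pi.zero_apply, Pi.zero_apply, br_zero, Pi.zero_apply, add_zero]
      unfold pt
      rw [if_pos ⟨rfl, rfl⟩]
    · intro b _ hb
      split_ifs
      · rfl
      · rw [Pi.zero_apply, Pi.zero_apply, br_zero, Pi.zero_apply, add_zero]
        unfold pt
        rw [if_neg (fun h => hb h.2), br_zero, Pi.zero_apply]
    · intro h
      exact absurd (Finset.mem_univ c) h
  · intro b _ hb
    refine Finset.sum_eq_zero fun c' _ => ?_
    split_ifs
    · rfl
    · rw [Pi.zero_apply, Pi.zero_apply, br_zero, Pi.zero_apply, add_zero]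
      unfold pt
      rw [if_neg (fun h => hb h.1), br_zero, Pi.zero_apply]
  · intro h
    exact absurd (Finset.mem_univ a) h

theorem Sm_pt2 {a c : Fin 3} (hac : a ≠ c) (E : Fin 3 → A p) (e : Fin 3) :
    Sm m1 m2 κ1 κ2 0 (pt a c E) e = br (fld2 a c (m2 a c) (κ2 a c)) E e := by
  unfold Sm
  rw [Finset.sum_eq_single a]
  · rw [Finset.sum_eq_single c]
    · rw [if_neg hac, Pi.zero_apply, Pi.zero_apply, br_zero, Pi.zero_apply, zero_add]
      unfold pt
      rw [if_pos ⟨rfl, rfl⟩]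
    · intro b _ hb
      split_ifs
      · rfl
      · rw [Pi.zero_apply, Pi.zero_apply, br_zero, Pi.zero_apply, zero_add]
        unfold pt
        rw [if_neg (fun h => hb h.2), br_zero, Pi.zero_apply]
    · intro h
      exact absurd (Finset.mem_univ c) h
  · intro b _ hb
    refine Finset.sum_eq_zero fun c' _ => ?_
    split_ifs
    · rfl
    · rw [Pi.zero_apply, Pi.zero_apply, br_zero, Pi.zero_apply, zero_add]
      unfold pt
      rw [if_neg (fun h => hb h.1), br_zero, Pi.zero_apply]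
  · intro h
    exact absurd (Finset.mem_univ a) h

/-- the vector field `Z` is a sum of brackets up to higher order -/
def Sol (j : ℕ) (Z : Fin 3 → A p) : Prop := ∃ W1 W2 : Fin 3 → Fin 3 → Fin 3 → A p,
  (∀ a c e, W1 a c e ∈ M p (j + 2 - m1 a c) ∧ W2 a c e ∈ M p (j + 1 - m2 a c)) ∧
    ∀ e, Z e - Sm m1 m2 κ1 κ2 W1 W2 e ∈ M p (j + 2)

variable {m1 m2 κ1 κ2}

theorem Sol.add {j : ℕ} {Z Y : Fin 3 → A p} (h : Sol m1 m2 κ1 κ2 j Z)
    (g : Sol m1 m2 κ1 κ2 j Y) : Sol m1 m2 κ1 κ2 j (Z + Y) := by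
  obtain ⟨W1, W2, h1, h2⟩ := h
  obtain ⟨V1, V2, g1, g2⟩ := g
  refine ⟨W1 + V1, W2 + V2, fun a c e => ⟨?_, ?_⟩, fun e => ?_⟩
  · exact Ideal.add_mem _ (h1 a c e).1 (g1 a c e).1
  · exact Ideal.add_mem _ (h1 a c e).2 (g1 a c e).2
  · rw [Sm_add, Pi.add_apply]
    have e1 : Z e + Y e - (Sm m1 m2 κ1 κ2 W1 W2 e + Sm m1 m2 κ1 κ2 V1 V2 e) =
        (Z e - Sm m1 m2 κ1 κ2 W1 W2 e) + (Y e - Sm m1 m2 κ1 κ2 V1 V2 e) := by ring
    rw [e1]
    exact Ideal.add_mem _ (h2 e) (g2 e)

theorem Sol.of_mem {j : ℕ} {Z : Fin 3 → A p} (h : ∀ e, Z e ∈ M p (j + 2)) :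
    Sol m1 m2 κ1 κ2 j Z := by
  refine ⟨0, 0, fun a c e => ⟨Ideal.zero_mem _, Ideal.zero_mem _⟩, fun e => ?_⟩
  rw [Sm_zero, sub_zero]
  exact h e

theorem Sol.sum {j : ℕ} {ι : Type} (s : Finset ι) (Z : ι → Fin 3 → A p)
    (h : ∀ i ∈ s, Sol m1 m2 κ1 κ2 j (Z i)) : Sol m1 m2 κ1 κ2 j (∑ i ∈ s, Z i) := by
  classical
  induction s using Finset.induction_on with
  | empty =>
    rw [Finset.sum_empty]
    exact Sol.of_mem fun e => Ideal.zero_mem _
  | insert i s hi ih =>
    rw [Finset.sum_insert hi]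
    exact (h i (Finset.mem_insert_self i s)).add (ih fun k hk => h k (Finset.mem_insert_of_mem hk))

theorem mono_mem {β : Fin 3 →₀ ℕ} {w : ZMod p} {k : ℕ} (h : k ≤ β.degree) :
    (monomial β w : A p) ∈ M p k := by
  classical
  intro α hα
  rw [coeff_monomial, if_neg]
  rintro rfl
  omega

theorem el_mem {e : Fin 3} {f : A p} {k : ℕ} (h : f ∈ M p k) (i : Fin 3) : el e f i ∈ M p k := by
  unfold el
  split_ifs
  · exact h
  · exact Ideal.zero_mem _

theorem pt_mem {a c : Fin 3} {E : Fin 3 → A p} {k : Fin 3 → Fin 3 → ℕ}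
    (h : ∀ e, E e ∈ M p (k a c)) (a' c' e : Fin 3) : pt a c E a' c' e ∈ M p (k a' c') := by
  unfold pt
  split_ifs with h1
  · obtain ⟨rfl, rfl⟩ := h1
    exact h e
  · exact Ideal.zero_mem _

theorem deg_three (α : Fin 3 →₀ ℕ) : α.degree = α 0 + α 1 + α 2 := by
  rw [Finsupp.degree_eq_sum, Fin.sum_univ_three]

theorem Sol.single [Fact p.Prime] {m0 j : ℕ}
    (hκ : ∀ a c, a ≠ c → κ1 a c ≠ 0 ∧ κ2 a c ≠ 0 ∧ p ∣ m1 a c ∧ p ∣ m2 a c)
    (hm : ∀ a c, m1 a c ≤ m0 ∧ m2 a c ≤ m0) (hj : 3 * m0 + 3 ≤ j) {α : Fin 3 →₀ ℕ}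
    (hα : α.degree = j + 1) (e : Fin 3) (z : ZMod p) :
    Sol m1 m2 κ1 κ2 j (el e (monomial α z)) := by
  obtain ⟨a, ha⟩ : ∃ a, m0 ≤ α a := by
    by_contra h
    push Not at h
    have h0 := h 0
    have h1 := h 1
    have h2 := h 2
    rw [deg_three] at hα
    omega
  have h3 : ∀ a e : Fin 3, ∃ c, a ≠ c ∧ e ≠ c := by decide
  obtain ⟨c, hac, hec⟩ := h3 a e
  obtain ⟨k1, k2, p1, p2⟩ := hκ a c hac
  obtain ⟨l1, l2⟩ := hm a c
  by_cases hp : ((α c : ℕ) : ZMod p) = 0
  · -- use the fields of the first kind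
    obtain ⟨β, hβ⟩ : ∃ β : Fin 3 →₀ ℕ, α = β + Finsupp.single a (m1 a c) := by
      refine ⟨α - Finsupp.single a (m1 a c), ?_⟩
      ext i
      rw [Finsupp.add_apply, Finsupp.tsub_apply]
      by_cases hi : i = a
      · subst hi
        rw [Finsupp.single_eq_same]
        omega
      · rw [Finsupp.single_eq_of_ne hi]
        omega
    have hβc : β c = α c := by
      rw [hβ, Finsupp.add_apply, Finsupp.single_eq_of_ne (fun h => hac h.symm), add_zero]
    have hd : β.degree + m1 a c = j + 1 := by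
      rw [← hα, hβ, map_add, Finsupp.degree_single]
    have key := br_one (a := a) (c := c) (e := e) p1 (κ1 a c) β (z / κ1 a c)
    rw [hβc, hp, zero_add, one_mul, ← hβ, mul_div_cancel₀ _ k1] at key
    refine ⟨pt a c (el e (monomial (β + Finsupp.single c 1) (z / κ1 a c))), 0,
      fun a' c' e' => ⟨?_, Ideal.zero_mem _⟩, fun e' => ?_⟩
    · refine pt_mem (k := fun a c => j + 2 - m1 a c) (fun e'' => el_mem (mono_mem ?_) e'') a' c' e'
      rw [map_add, Finsupp.degree_single]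
      omega
    · rw [Sm_pt1 m1 m2 κ1 κ2 hac, key, sub_self]
      exact Ideal.zero_mem _
  · obtain ⟨β, hβ⟩ : ∃ β : Fin 3 →₀ ℕ, α = β + Finsupp.single a (m2 a c) := by
      refine ⟨α - Finsupp.single a (m2 a c), ?_⟩
      ext i
      rw [Finsupp.add_apply, Finsupp.tsub_apply]
      by_cases hi : i = a
      · subst hi
        rw [Finsupp.single_eq_same]
        omega
      · rw [Finsupp.single_eq_of_ne hi]
        omega
    have hβc : β c = α c := by
      rw [hβ, Finsupp.add_apply, Finsupp.single_eq_of_ne (fun h => hac h.symm), add_zero]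
    have hd : β.degree + m2 a c = j + 1 := by
      rw [← hα, hβ, map_add, Finsupp.degree_single]
    have key := br_two (a := a) (c := c) (e := e) p2 hec (κ2 a c) β
      (z / (κ2 a c * (α c : ZMod p)))
    have e1 : κ2 a c * ((α c : ZMod p) * (z / (κ2 a c * (α c : ZMod p)))) = z := by
      field_simp
    rw [hβc, e1, ← hβ] at key
    refine ⟨0, pt a c (el e (monomial β (z / (κ2 a c * (α c : ZMod p))))),
      fun a' c' e' => ⟨Ideal.zero_mem _, ?_⟩, fun e' => ?_⟩
    · refine pt_mem (k := fun a c => j + 1 - m2 a c) (fun e'' => el_mem (mono_mem ?_) e'') a' c' e'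
      omega
    · rw [Sm_pt2 m1 m2 κ1 κ2 hac, key, sub_self]
      exact Ideal.zero_mem _

end

/-- the multi-indices of degree `k` -/
def dg (k : ℕ) : Finset (Fin 3 →₀ ℕ) := Finset.finsuppAntidiag Finset.univ k

theorem mem_dg {k : ℕ} {α : Fin 3 →₀ ℕ} : α ∈ dg k ↔ α.degree = k := by
  unfold dg
  rw [Finset.mem_finsuppAntidiag, Finsupp.degree_eq_sum]
  simp

theorem Sol.main [Fact p.Prime] {m1 m2 : Fin 3 → Fin 3 → ℕ} {κ1 κ2 : Fin 3 → Fin 3 → ZMod p}
    {m0 j : ℕ}
    (hκ : ∀ a c, a ≠ c → κ1 a c ≠ 0 ∧ κ2 a c ≠ 0 ∧ p ∣ m1 a c ∧ p ∣ m2 a c)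
    (hm : ∀ a c, m1 a c ≤ m0 ∧ m2 a c ≤ m0) (hj : 3 * m0 + 3 ≤ j) {Z : Fin 3 → A p}
    (hZ : ∀ e, Z e ∈ M p (j + 1)) : Sol m1 m2 κ1 κ2 j Z := by
  classical
  set Y : Fin 3 → A p := ∑ e : Fin 3, ∑ α ∈ dg (j + 1), el e (monomial α (coeff α (Z e))) with hY
  have h1 : Sol m1 m2 κ1 κ2 j Y := Sol.sum _ _ fun e _ => Sol.sum _ _ fun α hα =>
    Sol.single hκ hm hj (mem_dg.1 hα) e _
  have h2 : ∀ e, (Z - Y) e ∈ M p (j + 2) := by
    intro e
    have h3 : Y e = ∑ α ∈ dg (j + 1), monomial α (coeff α (Z e)) := by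
      rw [hY, Finset.sum_apply, Finset.sum_eq_single e]
      · rw [Finset.sum_apply]
        refine Finset.sum_congr rfl fun α _ => ?_
        unfold el
        rw [if_pos rfl]
      · intro b _ hb
        rw [Finset.sum_apply]
        refine Finset.sum_eq_zero fun α _ => ?_
        unfold el
        rw [if_neg (fun h => hb h.symm)]
      · intro h
        exact absurd (Finset.mem_univ e) h
    intro β hβ
    rw [Pi.sub_apply, h3, map_sub, map_sum]
    by_cases h4 : β.degree = j + 1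
    · rw [Finset.sum_eq_single β]
      · rw [coeff_monomial_same, sub_self]
      · intro b _ hb
        rw [coeff_monomial_ne (fun h => hb h.symm)]
      · intro h
        exact absurd (mem_dg.2 h4) h
    · rw [hZ e β (by omega), zero_sub, neg_eq_zero]
      refine Finset.sum_eq_zero fun α hα => ?_
      rw [coeff_monomial_ne]
      rintro rfl
      exact h4 (mem_dg.1 hα)
  have h5 := h1.add (Sol.of_mem h2)
  rwa [add_sub_cancel] at h5

/-- **STEPA** -/
theorem t_STEPA (p : ℕ) [Fact p.Prime] : S_STEPA p := by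
  intro m1 m2 κ1 κ2 hκ
  set m0 : ℕ := ∑ a, ∑ c, (m1 a c + m2 a c) with hm0
  have hm : ∀ a c, m1 a c ≤ m0 ∧ m2 a c ≤ m0 := by
    intro a c
    have h1 : m1 a c + m2 a c ≤ m0 := by
      calc m1 a c + m2 a c ≤ ∑ c', (m1 a c' + m2 a c') :=
            Finset.single_le_sum (f := fun c' => m1 a c' + m2 a c') (fun _ _ => Nat.zero_le _)
              (Finset.mem_univ c)
        _ ≤ m0 := Finset.single_le_sum (f := fun a' => ∑ c', (m1 a' c' + m2 a' c'))
              (fun _ _ => Nat.zero_le _) (Finset.mem_univ a)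
    omega
  refine ⟨3 * m0 + 3, fun a c => ?_, fun j hj Z hZ => Sol.main hκ hm hj hZ⟩
  have := hm a c
  omega

end Pool.Agent.N971.HJ.STEPA
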