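import Pool.Agent.N971.HJ.STEPA

/-!
# One step of the successive approximation by products of commutators
-/

set_option autoImplicit false

namespace Pool.Agent.N971.HJ.STEPB

open Pool.Agent.N206.HJ MvPowerSeries
open Pool.Agent.N971.HJ.STEPA (br_add br_zero)

variable {p : ℕ}

theorem vf_sub_left (D E : Fin 3 → A p) (f : A p) : vf (D - E) f = vf D f - vf E f := by
  simp only [vf, Pi.sub_apply, sub_mul, Finset.sum_sub_distrib]

theorem br_sub_left (D D' E : Fin 3 → A p) (i : Fin 3) :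
    br (D - D') E i = br D E i - br D' E i := by
  unfold br
  rw [vf_sub_left, Pi.sub_apply, vf_sub]
  ring

theorem br_mem {s t : ℕ} {D E : Fin 3 → A p} (hs : 1 ≤ s) (ht : 1 ≤ t)
    (hD : ∀ i, D i ∈ M p s) (hE : ∀ i, E i ∈ M p t) (i : Fin 3) :
    br D E i ∈ M p (s + t - 1) := by
  unfold br
  exact Ideal.sub_mem _ (M_anti (by omega) (vf_mem hD (hE i)))
    (M_anti (by omega) (vf_mem hE (hD i)))

/-- the bracket as an additive map -/
noncomputable def brh (D : Fin 3 → A p) : (Fin 3 → A p) →+ (Fin 3 → A p) where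
  toFun := br D
  map_zero' := br_zero D
  map_add' := br_add D

theorem br_sum {ι : Type} (D : Fin 3 → A p) (s : Finset ι) (E : ι → Fin 3 → A p) :
    br D (∑ k ∈ s, E k) = ∑ k ∈ s, br D (E k) := map_sum (brh D) E s

theorem prod_list {j : ℕ} (hj : 1 ≤ j) (e : Fin 3) (l : List (Au p)) (hl : ∀ g ∈ l, g ∈ Ga p j) :
    l.prod ∈ Ga p j ∧
      l.prod (X e) - X e - (l.map fun g => g (X e) - X e).sum ∈ M p (j + 2) := by
  induction l with
  | nil =>
    refine ⟨Subgroup.one_mem _, ?_⟩
    rw [List.prod_nil, List.map_nil, List.sum_nil, sub_zero]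
    have h : (1 : Au p) (X e) = X e := rfl
    rw [h, sub_self]
    exact Ideal.zero_mem _
  | cons g l ih =>
    obtain ⟨h1, h2⟩ := ih fun k hk => hl k (List.mem_cons_of_mem g hk)
    have hg := hl g List.mem_cons_self
    rw [List.prod_cons, List.map_cons, List.sum_cons]
    refine ⟨Subgroup.mul_mem _ hg h1, ?_⟩
    rw [mul_ap]
    set y : A p := l.prod (X e) - X e with hy
    have h3 : l.prod (X e) = y + X e := by rw [hy]; ring
    rw [h3, map_add]
    have h4 : g y - y ∈ M p (j + 2) := M_anti (by omega) (Ga_sub hg (Ga_X h1 e))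
    have h5 : g y + g (X e) - X e - (g (X e) - X e + (l.map fun g => g (X e) - X e).sum) =
        (g y - y) + (y - (l.map fun g => g (X e) - X e).sum) := by ring
    rw [h5]
    exact Ideal.add_mem _ h4 h2

theorem mem_sup {f : A p} {ι : Type} (S : Finset ι) (g : ι → ℕ) (h : ∀ x ∈ S, f ∈ M p (g x)) :
    f ∈ M p (S.sup g) := by
  refine Finset.sup_induction (p := fun k => f ∈ M p k) (M_zero f) (fun a ha b hb => ?_) h
  rcases le_total a b with h1 | h1
  · rw [sup_eq_right.2 h1]
    exact hb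
  · rw [sup_eq_left.2 h1]
    exact ha

theorem mem_max {f : A p} {a b : ℕ} (ha : f ∈ M p a) (hb : f ∈ M p b) : f ∈ M p (max a b) := by
  rcases le_total a b with h1 | h1
  · rw [max_eq_right h1]
    exact hb
  · rw [max_eq_left h1]
    exact ha

theorem fld1_mem (a c : Fin 3) (m : ℕ) (κ : ZMod p) (i : Fin 3) : fld1 a c m κ i ∈ M p m := by
  unfold fld1
  split_ifs
  · exact M_mul_left (Xpow_mem a m)
  · exact Ideal.zero_mem _

theorem fld2_mem (a c : Fin 3) (m : ℕ) (κ : ZMod p) (i : Fin 3) :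
    fld2 a c m κ i ∈ M p (m + 1) := by
  unfold fld2
  split_ifs
  · exact M_mul (M_mul_left (Xpow_mem a m)) (X_mem c)
  · exact Ideal.zero_mem _

/-- **STEP** -/
theorem t_STEP (p : ℕ) [Fact p.Prime] (h1 : S_EXIST p) (h2 : S_DET2 p) (h3 : S_LT p)
    (h4 : S_STEPA p) (_h5 : S_TAY p) (h6 : S_GRP p) : S_STEP p := by
  classical
  intro n u hu hK
  obtain ⟨i0, -⟩ := (hK 0 1 (by decide)).1
  have e1 : ∀ a c : Fin 3, ∃ (i : Fin n) (m : ℕ) (κ : ZMod p), a ≠ c →
      κ ≠ 0 ∧ p ∣ m ∧ 2 ≤ m ∧ Ap (m + 1) (fld1 a c m κ) (u i) := by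
    intro a c
    by_cases hac : a = c
    · exact ⟨i0, 0, 0, fun h => absurd hac h⟩
    · obtain ⟨i, m, κ, k1, k2, k3, k4⟩ := (hK a c hac).1
      exact ⟨i, m, κ, fun _ => ⟨k1, k2, k3, k4⟩⟩
  have e2 : ∀ a c : Fin 3, ∃ (i : Fin n) (m : ℕ) (κ : ZMod p), a ≠ c →
      κ ≠ 0 ∧ p ∣ m ∧ 2 ≤ m ∧ Ap (m + 2) (fld2 a c m κ) (u i) := by
    intro a c
    by_cases hac : a = c
    · exact ⟨i0, 0, 0, fun h => absurd hac h⟩
    · obtain ⟨i, m, κ, k1, k2, k3, k4⟩ := (hK a c hac).2
      exact ⟨i, m, κ, fun _ => ⟨k1, k2, k3, k4⟩⟩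
  choose i1 m1 κ1 hu1 using e1
  choose i2 m2 κ2 hu2 using e2
  obtain ⟨B, hB, hstep⟩ := h4 m1 m2 κ1 κ2 fun a c hac =>
    ⟨(hu1 a c hac).1, (hu2 a c hac).1, (hu1 a c hac).2.1, (hu2 a c hac).2.1⟩
  refine ⟨B + 2, fun j hj γ hγ => ?_⟩
  obtain ⟨W1, W2, hW, hZ⟩ := hstep j (by omega) (fun e => γ (X e) - X e) fun e => Ga_X hγ e
  -- the vector fields of the `u i`
  set δ : Fin n → Fin 3 → A p := fun i e => u i (X e) - X e with hδ
  have d1 : ∀ a c, a ≠ c → ∀ e, δ (i1 a c) e - fld1 a c (m1 a c) (κ1 a c) e ∈ M p (m1 a c + 1) :=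
    fun a c hac e => (hu1 a c hac).2.2.2 e
  have d2 : ∀ a c, a ≠ c → ∀ e, δ (i2 a c) e - fld2 a c (m2 a c) (κ2 a c) e ∈ M p (m2 a c + 2) :=
    fun a c hac e => (hu2 a c hac).2.2.2 e
  set f1 : Fin n → Fin 3 × Fin 3 → ℕ := fun i q =>
    if q.1 ≠ q.2 ∧ i1 q.1 q.2 = i then m1 q.1 q.2 else 0 with hf1
  set f2 : Fin n → Fin 3 × Fin 3 → ℕ := fun i q =>
    if q.1 ≠ q.2 ∧ i2 q.1 q.2 = i then m2 q.1 q.2 + 1 else 0 with hf2
  set s : Fin n → ℕ := fun i => max 2 (max (Finset.univ.sup (f1 i)) (Finset.univ.sup (f2 i)))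
    with hs
  have s2 : ∀ i, 2 ≤ s i := fun i => le_max_left _ _
  have sB : ∀ i, s i ≤ B + 2 := by
    intro i
    refine max_le (by omega) (max_le ?_ ?_)
    · refine Finset.sup_le fun q _ => ?_
      have := hB q.1 q.2
      simp only [hf1]
      split_ifs <;> omega
    · refine Finset.sup_le fun q _ => ?_
      have := hB q.1 q.2
      simp only [hf2]
      split_ifs <;> omega
  have sδ : ∀ i e, δ i e ∈ M p (s i) := by
    intro i e
    refine mem_max (Ga_X (hu i) e) (mem_max (mem_sup _ _ fun q _ => ?_) (mem_sup _ _ fun q _ => ?_))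
    · simp only [hf1]
      split_ifs with h
      · obtain ⟨ha, hb⟩ := h
        have h7 := d1 q.1 q.2 ha e
        rw [hb] at h7
        have h8 : δ i e = (δ i e - fld1 q.1 q.2 (m1 q.1 q.2) (κ1 q.1 q.2) e) +
            fld1 q.1 q.2 (m1 q.1 q.2) (κ1 q.1 q.2) e := by ring
        rw [h8]
        exact Ideal.add_mem _ (M_anti (by omega) h7) (fld1_mem _ _ _ _ _)
      · exact M_zero _
    · simp only [hf2]
      split_ifs with h
      · obtain ⟨ha, hb⟩ := h
        have h7 := d2 q.1 q.2 ha e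
        rw [hb] at h7
        have h8 : δ i e = (δ i e - fld2 q.1 q.2 (m2 q.1 q.2) (κ2 q.1 q.2) e) +
            fld2 q.1 q.2 (m2 q.1 q.2) (κ2 q.1 q.2) e := by ring
        rw [h8]
        exact Ideal.add_mem _ (M_anti (by omega) h7) (fld2_mem _ _ _ _ _)
      · exact M_zero _
  have sm1 : ∀ a c, a ≠ c → m1 a c ≤ s (i1 a c) := by
    intro a c hac
    have h7 : f1 (i1 a c) (a, c) ≤ Finset.univ.sup (f1 (i1 a c)) :=
      Finset.le_sup (Finset.mem_univ (a, c))
    have h8 : f1 (i1 a c) (a, c) = m1 a c := if_pos ⟨hac, rfl⟩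
    rw [h8] at h7
    exact h7.trans ((le_max_left _ _).trans (le_max_right _ _))
  have sm2 : ∀ a c, a ≠ c → m2 a c + 1 ≤ s (i2 a c) := by
    intro a c hac
    have h7 : f2 (i2 a c) (a, c) ≤ Finset.univ.sup (f2 (i2 a c)) :=
      Finset.le_sup (Finset.mem_univ (a, c))
    have h8 : f2 (i2 a c) (a, c) = m2 a c + 1 := if_pos ⟨hac, rfl⟩
    rw [h8] at h7
    exact h7.trans ((le_max_right _ _).trans (le_max_right _ _))
  -- the vector fields of the `v i`
  set T1 : Fin n → Fin 3 → Fin 3 → Fin 3 → A p := fun i a c =>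
    if a ≠ c ∧ i1 a c = i then W1 a c else 0 with hT1
  set T2 : Fin n → Fin 3 → Fin 3 → Fin 3 → A p := fun i a c =>
    if a ≠ c ∧ i2 a c = i then W2 a c else 0 with hT2
  set W : Fin n → Fin 3 → A p := fun i => ∑ a : Fin 3, ∑ c : Fin 3, (T1 i a c + T2 i a c) with hWd
  have hWm : ∀ i e, W i e ∈ M p (j + 2 - s i) := by
    intro i e
    simp only [hWd]
    rw [Finset.sum_apply]
    refine Ideal.sum_mem _ fun a _ => ?_
    rw [Finset.sum_apply]
    refine Ideal.sum_mem _ fun c _ => ?_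
    rw [Pi.add_apply]
    refine Ideal.add_mem _ ?_ ?_
    · simp only [hT1]
      split_ifs with h
      · obtain ⟨ha, rfl⟩ := h
        have := sm1 a c ha
        exact M_anti (by omega) (hW a c e).1
      · exact Ideal.zero_mem _
    · simp only [hT2]
      split_ifs with h
      · obtain ⟨ha, rfl⟩ := h
        have := sm2 a c ha
        exact M_anti (by omega) (hW a c e).2
      · exact Ideal.zero_mem _
  have hv : ∀ i, ∃ g ∈ Ga p (j + 1 - s i), ∀ e, g (X e) = X e + W i e := by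
    intro i
    have := sB i
    refine h1 (j + 1 - s i) (by omega) (W i) fun e => ?_
    exact M_anti (by omega) (hWm i e)
  choose v hv1 hv2 using hv
  have hvG : ∀ i, v i ∈ Ga p 1 := fun i => by
    have := sB i
    exact Ga_anti (by omega) (hv1 i)
  have huG : ∀ i, u i ∈ Ga p (s i - 1) := fun i => by
    have := s2 i
    exact h2.2 (u i) (hu i) (s i - 1) fun e => M_anti (by omega) (sδ i e)
  have hcG : ∀ i, u i * v i * (u i)⁻¹ * (v i)⁻¹ ∈ Ga p j := fun i => by
    have k1 := s2 i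
    have k2 := sB i
    exact Ga_anti (by omega) (h6.1 _ _ _ _ (huG i) (hv1 i))
  have hcA : ∀ i e, (u i * v i * (u i)⁻¹ * (v i)⁻¹) (X e) - X e - br (δ i) (W i) e ∈
      M p (j + 2) := by
    intro i e
    have k1 := s2 i
    have k2 := sB i
    have h7 := h3 (u i) (v i) (δ i) (W i) (s i) (j + 2 - s i) k1 (by omega) (hu i) (hvG i)
      (sδ i) (hWm i) (fun e => by
        simp only [hδ]
        rw [sub_self]
        exact Ideal.zero_mem _) (fun e => by
        rw [hv2 i e, add_sub_cancel_left, sub_self]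
        exact Ideal.zero_mem _) e
    exact M_anti (by omega) h7
  -- the product of the commutators
  have hpc : ∀ e, pc u v (X e) - X e - ∑ i, br (δ i) (W i) e ∈ M p (j + 2) := by
    intro e
    have h7 := (prod_list (j := j) (by omega) e
      (List.ofFn fun i => u i * v i * (u i)⁻¹ * (v i)⁻¹) (by
        intro g hg
        rw [List.mem_ofFn] at hg
        obtain ⟨i, rfl⟩ := hg
        exact hcG i)).2
    rw [List.map_ofFn, List.sum_ofFn] at h7
    have h8 : ∑ i, ((u i * v i * (u i)⁻¹ * (v i)⁻¹) (X e) - X e) - ∑ i, br (δ i) (W i) e ∈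
        M p (j + 2) := by
      rw [← Finset.sum_sub_distrib]
      exact Ideal.sum_mem _ fun i _ => hcA i e
    have h9 := Ideal.add_mem _ h7 h8
    have h10 : pc u v = (List.ofFn fun i => u i * v i * (u i)⁻¹ * (v i)⁻¹).prod := rfl
    rw [h10]
    refine (congrArg (fun x => x ∈ M p (j + 2)) ?_).mp h9
    simp only [Function.comp_apply]
    ring
  have hpcG : pc u v ∈ Ga p j := (prod_list (j := j) (by omega) 0
      (List.ofFn fun i => u i * v i * (u i)⁻¹ * (v i)⁻¹) (by
        intro g hg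
        rw [List.mem_ofFn] at hg
        obtain ⟨i, rfl⟩ := hg
        exact hcG i)).1
  -- the sum of the brackets
  have hsum : ∀ e, ∑ i, br (δ i) (W i) e = ∑ a : Fin 3, ∑ c : Fin 3, (if a = c then 0 else
      br (δ (i1 a c)) (W1 a c) e + br (δ (i2 a c)) (W2 a c) e) := by
    intro e
    have k1 : ∀ i, br (δ i) (W i) e = ∑ a : Fin 3, ∑ c : Fin 3,
        (br (δ i) (T1 i a c) e + br (δ i) (T2 i a c) e) := by
      intro i
      simp only [hWd]
      rw [br_sum, Finset.sum_apply]
      refine Finset.sum_congr rfl fun a _ => ?_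
      rw [br_sum, Finset.sum_apply]
      refine Finset.sum_congr rfl fun c _ => ?_
      rw [br_add, Pi.add_apply]
    rw [Finset.sum_congr rfl fun i _ => k1 i, Finset.sum_comm]
    refine Finset.sum_congr rfl fun a _ => ?_
    rw [Finset.sum_comm]
    refine Finset.sum_congr rfl fun c _ => ?_
    by_cases hac : a = c
    · rw [if_pos hac]
      refine Finset.sum_eq_zero fun i _ => ?_
      simp only [hT1, hT2]
      rw [if_neg (fun h => h.1 hac), if_neg (fun h => h.1 hac), br_zero, Pi.zero_apply, add_zero]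
    · rw [if_neg hac, Finset.sum_add_distrib]
      congr 1
      · rw [Finset.sum_eq_single (i1 a c)]
        · simp only [hT1]
          rw [if_pos ⟨hac, trivial⟩]
        · intro b _ hb
          simp only [hT1]
          rw [if_neg (fun h => hb h.2.symm), br_zero, Pi.zero_apply]
        · intro h
          exact absurd (Finset.mem_univ _) h
      · rw [Finset.sum_eq_single (i2 a c)]
        · simp only [hT2]
          rw [if_pos ⟨hac, trivial⟩]
        · intro b _ hb
          simp only [hT2]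
          rw [if_neg (fun h => hb h.2.symm), br_zero, Pi.zero_apply]
        · intro h
          exact absurd (Finset.mem_univ _) h
  have hdiff : ∀ e, ∑ i, br (δ i) (W i) e - ∑ a : Fin 3, ∑ c : Fin 3, (if a = c then 0 else
      br (fld1 a c (m1 a c) (κ1 a c)) (W1 a c) e + br (fld2 a c (m2 a c) (κ2 a c)) (W2 a c) e) ∈
        M p (j + 2) := by
    intro e
    rw [hsum, ← Finset.sum_sub_distrib]
    refine Ideal.sum_mem _ fun a _ => ?_
    rw [← Finset.sum_sub_distrib]
    refine Ideal.sum_mem _ fun c _ => ?_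
    by_cases hac : a = c
    · rw [if_pos hac, if_pos hac, sub_self]
      exact Ideal.zero_mem _
    · rw [if_neg hac, if_neg hac]
      have l1 := (hB a c).1
      have l2 := (hB a c).2
      have k1 := br_mem (s := m1 a c + 1) (t := j + 2 - m1 a c)
        (D := δ (i1 a c) - fld1 a c (m1 a c) (κ1 a c)) (E := W1 a c) (by omega) (by omega)
        (d1 a c hac) (fun e => (hW a c e).1) e
      have k2 := br_mem (s := m2 a c + 2) (t := j + 1 - m2 a c)
        (D := δ (i2 a c) - fld2 a c (m2 a c) (κ2 a c)) (E := W2 a c) (by omega) (by omega)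
        (d2 a c hac) (fun e => (hW a c e).2) e
      rw [br_sub_left] at k1 k2
      have k3 := Ideal.add_mem _ (M_anti (i := j + 2) (by omega) k1)
        (M_anti (i := j + 2) (by omega) k2)
      refine (congrArg (fun x => x ∈ M p (j + 2)) ?_).mp k3
      ring
  have hfin : ∀ e, γ (X e) - pc u v (X e) ∈ M p (j + 2) := by
    intro e
    have k1 := Ideal.sub_mem _ (hZ e) (Ideal.add_mem _ (hpc e) (hdiff e))
    refine (congrArg (fun x => x ∈ M p (j + 2)) ?_).mp k1
    ring
  refine ⟨v, fun i => ?_, hcG, ?_⟩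
  · have := sB i
    exact Ga_anti (by omega) (hv1 i)
  · have hP1 : (pc u v)⁻¹ ∈ Ga p j := Subgroup.inv_mem _ hpcG
    refine h2.2 _ (Subgroup.mul_mem _ (Ga_anti (by omega) hP1) (Ga_anti (by omega) hγ)) (j + 1)
      fun e => ?_
    have k1 := Ga_pres hP1 (hfin e)
    rw [map_sub, ap_inv] at k1
    exact k1

end Pool.Agent.N971.HJ.STEPB
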